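import Mathlib

/-!
# Ratios of successive critical values
-/

set_option autoImplicit false

open NumberField Complex

open scoped ComplexConjugate

namespace Pool.Agent.R387.RC

/-- `Δ` is Deligne's number `Δ_F` (for some choice of `D` and of the square root). -/
def IsDelta (F : Type) [Field F] [NumberField F] (Δ : ℂ) : Prop :=
  (∃ F₁ : Subfield F, IsCMField F₁ ∧ (∀ K : Subfield F, IsCMField K → K ≤ F₁) ∧
    ∃ (D : maximalRealSubfield F) (x : F) (δ : ℂ),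
      (∀ φ : F →+* ℂ, (φ (D : F)).re < 0) ∧ x ^ 2 = (D : F) ∧
      F₁ = Subfield.closure ((maximalRealSubfield F : Set F) ∪ {x}) ∧
      δ ^ 2 = ((Algebra.norm ℚ D : ℚ) : ℂ) ∧ Δ = δ ^ (Module.finrank F₁ F)) ∨
  ((∀ K : Subfield F, ¬ IsCMField K) ∧ Δ = 1)

theorem IsDelta.sq {F : Type} [Field F] [NumberField F] {Δ : ℂ} (h : IsDelta F Δ) :
    ∃ q : ℚ, q ≠ 0 ∧ Δ ^ 2 = (q : ℂ) := by
  rcases h with ⟨F₁, -, -, D, x, δ, hD, -, -, hδ, rfl⟩ | ⟨-, rfl⟩
  · refine ⟨(Algebra.norm ℚ D) ^ Module.finrank F₁ F, ?_, ?_⟩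
    · apply pow_ne_zero
      rw [Algebra.norm_ne_zero_iff]
      rintro rfl
      obtain ⟨φ⟩ : Nonempty (F →+* ℂ) := inferInstance
      have := hD φ
      simp at this
    · rw [← pow_mul, mul_comm, pow_mul, hδ]
      push_cast
      rfl
  · exact ⟨1, one_ne_zero, by simp⟩

end Pool.Agent.R387.RC
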