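import Pool.Agent.R387.RC.Basic

/-!
# Duality and the central pair
-/

set_option autoImplicit false

set_option linter.unusedSectionVars false

open NumberField Complex

open scoped ComplexConjugate

namespace Pool.Agent.R387.RC

/-- the complex conjugate of an embedding -/
abbrev bar {K : Type} [Field K] (σ : K →+* ℂ) : K →+* ℂ := ComplexEmbedding.conjugate σ

/-- The data of a pure motive `M₀` over `F` with coefficients in `E` and of `M = Res M₀`. -/
structure Motive (F E : Type) [Field F] [NumberField F] [Field E] where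
  /-- the rank of `M₀` -/
  n : ℕ
  /-- the weight -/
  w : ℤ
  /-- the norm of the conductor of `M₀` -/
  f : ℕ
  f_pos : 0 < f
  /-- the conductor of `M` -/
  N : ℕ
  N_eq : N = (discr F).natAbs ^ n * f
  /-- `h σ ι p` is the Hodge number `h^{p, w - p}` of `M₀` at the embeddings `σ` of `F` and `ι` of
  `E` -/
  h : (F →+* ℂ) → (E →+* ℂ) → ℤ → ℕ
  h_fin : ∀ σ ι, (Function.support (h σ ι)).Finite
  h_sum : ∀ σ ι, ∑ᶠ p, h σ ι p = n
  h_conj : ∀ σ ι p, h (bar σ) (bar ι) p = h σ ι p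
  h_symm : ∀ σ ι p, h (bar σ) ι p = h σ ι (w - p)
  no_middle : ∀ σ ι p, 2 * p = w → h σ ι p = 0
  /-- the completed L-functions of `M` -/
  L : (E →+* ℂ) → ℂ → ℂ

variable {F E : Type} [Field F] [NumberField F] [Field E] [NumberField E]

omit [NumberField E] in
theorem Motive.N_pos (M : Motive F E) : 0 < M.N := by
  rw [M.N_eq]
  exact Nat.mul_pos (Nat.pow_pos (Int.natAbs_pos.2 (discr_ne_zero F))) M.f_pos

/-- critical integers -/
def Crit {F E : Type} [Field F] [NumberField F] [Field E] (M : Motive F E) (m : ℤ) : Prop :=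
  ∀ σ ι p, M.h σ ι p ≠ 0 → 2 * p < M.w → p < m ∧ m ≤ M.w - p

/-- `M'` is the dual of `M`: the standard properties -/
structure IsDual {F E : Type} [Field F] [NumberField F] [Field E] (M M' : Motive F E) (ε : (E →+* ℂ) → ℂ) :
    Prop where
  n_eq : M'.n = M.n
  w_eq : M'.w = - M.w
  N_eq : M'.N = M.N
  h_eq : ∀ σ ι p, M'.h σ ι p = M.h σ ι (-p)
  ε_ne : ∀ ι, ε ι ≠ 0
  /-- functional equation -/
  fe : ∀ (m : ℤ), Crit M m → ∀ ι, M.L ι m = ε ι * (M.N : ℂ) ^ (-m) * M'.L ι ((1 - m : ℤ) : ℂ)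
  /-- purity -/
  pure : ∀ ι (m : ℤ), M'.L ι m = conj (M.L ι ((m + M.w : ℤ) : ℂ))
  /-- conjugation of the coefficients -/
  coef : ∀ ι (m : ℤ), M.L (bar ι) m = conj (M.L ι m)

/-- the asserted formula at `m`, `m + 1` -/
def Formula (F : Type) [Field F] [NumberField F] {E : Type} [Field E] (Δ : ℂ) (M : Motive F E)
    (m : ℤ) : Prop :=
  ∃ e : E, e ≠ 0 ∧ ∀ ι : E →+* ℂ, M.L ι m / M.L ι ((m + 1 : ℤ) : ℂ) =
    ι e * (I ^ (Module.finrank ℚ F / 2) * Δ) ^ M.n

theorem const_sq {Δ : ℂ} {q : ℚ} (hq : q ≠ 0) (h : Δ ^ 2 = (q : ℂ)) (d n : ℕ) :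
    ∃ r : ℚ, r ≠ 0 ∧ ((I ^ d * Δ) ^ n) ^ 2 = (r : ℂ) := by
  refine ⟨((-1) ^ d * q) ^ n, pow_ne_zero _ (mul_ne_zero (pow_ne_zero _ (by norm_num)) hq), ?_⟩
  rw [← pow_mul, mul_comm n 2, pow_mul, mul_pow, ← pow_mul, mul_comm d 2, pow_mul, I_sq, h]
  push_cast
  rfl

theorem IsDual.crit {M M' : Motive F E} {ε : (E →+* ℂ) → ℂ} (h : IsDual M M' ε) (m : ℤ) :
    Crit M' (1 - m) ↔ Crit M m := by
  constructor
  · intro hc σ ι p hp hw
    have h1 : M'.h (bar σ) ι (p - M.w) ≠ 0 := by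
      rw [h.h_eq, M.h_symm]
      have : M.w - -(p - M.w) = p := by ring
      rw [this]
      exact hp
    have h2 := hc (bar σ) ι (p - M.w) h1 (by rw [h.w_eq]; omega)
    rw [h.w_eq] at h2
    omega
  · intro hc σ ι p hp hw
    rw [h.w_eq] at hw
    have h1 : M.h (bar σ) ι (M.w + p) ≠ 0 := by
      rw [M.h_symm]
      rw [h.h_eq] at hp
      have : M.w - (M.w + p) = -p := by ring
      rw [this]
      exact hp
    have h2 := hc (bar σ) ι (M.w + p) h1 (by omega)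
    rw [h.w_eq]
    omega

/-- the critical integers are symmetric -/
theorem crit_symm {M : Motive F E} (m : ℤ) (hm : Crit M m) : Crit M (M.w + 1 - m) := by
  intro σ ι p hp hw
  have := hm σ ι p hp hw
  omega

section dual

variable {M M' : Motive F E} {ε : (E →+* ℂ) → ℂ} (h : IsDual M M' ε)

include h

/-- duality of the ratios -/
theorem ratio_dual {m : ℤ} (h1 : Crit M m) (h2 : Crit M (m + 1)) (ι : E →+* ℂ) :
    M.L ι m / M.L ι ((m + 1 : ℤ) : ℂ) =
      (M.N : ℂ) * (M'.L ι ((-m : ℤ) : ℂ) / M'.L ι ((-m + 1 : ℤ) : ℂ))⁻¹ := by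
  have hN : (M.N : ℂ) ≠ 0 := by exact_mod_cast M.N_pos.ne'
  rw [h.fe m h1 ι, h.fe (m + 1) h2 ι]
  have e1 : (1 - (m + 1) : ℤ) = -m := by ring
  have e2 : (1 - m : ℤ) = -m + 1 := by ring
  rw [e1, e2, inv_div]
  have e3 : (M.N : ℂ) ^ (-m) = (M.N : ℂ) * (M.N : ℂ) ^ (-(m + 1)) := by
    rw [← zpow_one_add₀ hN]
    congr 1
    ring
  rw [e3]
  have h4 := h.ε_ne ι
  have h5 : (M.N : ℂ) ^ (-(m + 1)) ≠ 0 := zpow_ne_zero _ hN
  rw [show ε ι * ((M.N : ℂ) * (M.N : ℂ) ^ (-(m + 1))) * M'.L ι ((-m + 1 : ℤ) : ℂ) =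
    (ε ι * (M.N : ℂ) ^ (-(m + 1))) * ((M.N : ℂ) * M'.L ι ((-m + 1 : ℤ) : ℂ)) by ring,
    mul_div_mul_left _ _ (mul_ne_zero h4 h5), mul_div_assoc]

/-- nonvanishing of the dual values -/
theorem ne_dual {m : ℤ} (h1 : Crit M m) {ι : E →+* ℂ} :
    M'.L ι ((1 - m : ℤ) : ℂ) ≠ 0 ↔ M.L ι m ≠ 0 := by
  have hN : (M.N : ℂ) ≠ 0 := by exact_mod_cast M.N_pos.ne'
  rw [h.fe m h1 ι]
  have h4 := h.ε_ne ι
  have h5 : (M.N : ℂ) ^ (-m) ≠ 0 := zpow_ne_zero _ hN
  constructor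
  · intro h6
    exact mul_ne_zero (mul_ne_zero h4 h5) h6
  · intro h6 h7
    exact h6 (by rw [h7, mul_zero])

/-- duality -/
theorem formula_dual {Δ : ℂ} {q : ℚ} (hq : q ≠ 0) (hΔ : Δ ^ 2 = (q : ℂ)) {m : ℤ}
    (h1 : Crit M m) (h2 : Crit M (m + 1)) :
    Formula F Δ M m ↔ Formula F Δ M' (-m) := by
  have hN : (M.N : ℂ) ≠ 0 := by exact_mod_cast M.N_pos.ne'
  obtain ⟨r, hr0, hr⟩ := const_sq hq hΔ (Module.finrank ℚ F / 2) M.n
  unfold Formula
  rw [h.n_eq]
  set c : ℂ := (I ^ (Module.finrank ℚ F / 2) * Δ) ^ M.n with hc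
  have hr0' : (r : ℂ) ≠ 0 := by exact_mod_cast hr0
  have hc0 : c ≠ 0 := by
    intro e
    rw [e] at hr
    exact hr0' (by rw [← hr]; ring)
  have hci : c⁻¹ = c * (r : ℂ)⁻¹ := by
    have h7 : c * c = (r : ℂ) := by rw [← hr]; ring
    rw [← h7, mul_inv, ← mul_assoc, mul_inv_cancel₀ hc0, one_mul]
  constructor
  · rintro ⟨e, he, hf⟩
    refine ⟨(M.N : E) * e⁻¹ * (r : E)⁻¹, ?_, fun ι => ?_⟩
    · refine mul_ne_zero (mul_ne_zero ?_ (inv_ne_zero he)) (inv_ne_zero ?_)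
      · exact_mod_cast M.N_pos.ne'
      · exact_mod_cast hr0
    · have h3 := ratio_dual h h1 h2 ι
      rw [hf ι] at h3
      have he' : ι e ≠ 0 := (map_ne_zero ι).2 he
      have h4 : M'.L ι ((-m : ℤ) : ℂ) / M'.L ι ((-m + 1 : ℤ) : ℂ) =
          (M.N : ℂ) * (ι e * c)⁻¹ := by
        rw [h3]
        rw [mul_inv, inv_inv, ← mul_assoc, mul_inv_cancel₀ hN, one_mul]
      rw [h4, mul_inv, hci]
      simp only [map_mul, map_inv₀, map_natCast, map_ratCast]
      ring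
  · rintro ⟨e, he, hf⟩
    refine ⟨(M.N : E) * e⁻¹ * (r : E)⁻¹, ?_, fun ι => ?_⟩
    · refine mul_ne_zero (mul_ne_zero ?_ (inv_ne_zero he)) (inv_ne_zero ?_)
      · exact_mod_cast M.N_pos.ne'
      · exact_mod_cast hr0
    · rw [ratio_dual h h1 h2 ι, hf ι, mul_inv, hci]
      simp only [map_mul, map_inv₀, map_natCast, map_ratCast]
      ring

end dual

section central

variable {M M' : Motive F E} {ε : (E →+* ℂ) → ℂ} (h : IsDual M M' ε)

/-- the central pair is critical -/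
theorem central_crit (M : Motive F E) {m : ℤ} (hm : M.w = 2 * m) : Crit M m ∧ Crit M (m + 1) := by
  constructor
  · intro σ ι p hp hw
    omega
  · intro σ ι p hp hw
    omega

include h

/-- the ratio at the central pair -/
theorem central_ratio {m : ℤ} (hm : M.w = 2 * m) {ι : E →+* ℂ}
    (h0 : M.L ι ((m + 1 : ℤ) : ℂ) ≠ 0) :
    ‖M.L ι m / M.L ι ((m + 1 : ℤ) : ℂ)‖ ^ 2 = M.N := by
  obtain ⟨h1, h2⟩ := central_crit M hm
  have hN : (M.N : ℂ) ≠ 0 := by exact_mod_cast M.N_pos.ne'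
  have h3 := ratio_dual h h1 h2 ι
  rw [h.pure, h.pure] at h3
  have e1 : (-m + M.w : ℤ) = m := by rw [hm]; ring
  have e2 : (-m + 1 + M.w : ℤ) = m + 1 := by rw [hm]; ring
  rw [e1, e2] at h3
  have h4 := h.fe (m + 1) h2 ι
  rw [h.pure] at h4
  have e3 : (1 - (m + 1) + M.w : ℤ) = m := by rw [hm]; ring
  rw [e3] at h4
  have h5 : M.L ι m ≠ 0 := by
    intro e
    rw [e, map_zero, mul_zero] at h4
    exact h0 h4
  set x := M.L ι m / M.L ι ((m + 1 : ℤ) : ℂ) with hx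
  have hx0 : x ≠ 0 := div_ne_zero h5 h0
  rw [← map_div₀, ← hx, ← map_inv₀] at h3
  have hcx0 : conj x ≠ 0 := by rwa [Ne, map_eq_zero]
  have h6 : x * conj x = M.N := by
    rw [map_inv₀] at h3
    have h7 : x * conj x = ((M.N : ℂ) * (conj x)⁻¹) * conj x :=
      congrArg (fun z => z * conj x) h3
    rw [h7, mul_assoc, inv_mul_cancel₀ hcx0, mul_one]
  rw [mul_conj, normSq_eq_norm_sq] at h6
  exact_mod_cast h6

/-- nonvanishing at the left point of the central pair -/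
theorem central_ne {m : ℤ} (hm : M.w = 2 * m) {ι : E →+* ℂ}
    (h0 : M.L ι ((m + 1 : ℤ) : ℂ) ≠ 0) : M.L ι m ≠ 0 := by
  intro e
  have h1 := central_ratio h hm h0
  rw [e, zero_div, norm_zero] at h1
  have h2 : (M.N : ℝ) ≠ 0 := by exact_mod_cast M.N_pos.ne'
  exact h2 (by rw [← h1]; ring)

omit h in
/-- the rank is even if the coefficient field has a real embedding -/
theorem even_rank [Nonempty (F →+* ℂ)] (M : Motive F E) {ι : E →+* ℂ} (hι : bar ι = ι) :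
    Even M.n := by
  obtain ⟨σ⟩ := ‹Nonempty (F →+* ℂ)›
  have hs : ∀ p, M.h σ ι (M.w - p) = M.h σ ι p := by
    intro p
    rw [← M.h_symm σ ι p]
    have := M.h_conj σ ι p
    rw [hι] at this
    exact this
  have hf := M.h_fin σ ι
  rw [← M.h_sum σ ι, finsum_eq_sum_of_support_subset (s := hf.toFinset) _ (by simp)]
  rw [← Finset.sum_filter_add_sum_filter_not hf.toFinset (fun p => 2 * p < M.w)]
  have he : ∑ p ∈ hf.toFinset with ¬ 2 * p < M.w, M.h σ ι p =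
      ∑ p ∈ hf.toFinset with 2 * p < M.w, M.h σ ι p := by
    refine Finset.sum_nbij' (fun p => M.w - p) (fun p => M.w - p) ?_ ?_ ?_ ?_ ?_
    · intro p hp
      rw [Finset.mem_filter, Set.Finite.mem_toFinset, Function.mem_support] at hp ⊢
      refine ⟨by rw [hs]; exact hp.1, ?_⟩
      have h1 : 2 * p ≠ M.w := fun e => hp.1 (M.no_middle σ ι p e)
      omega
    · intro p hp
      rw [Finset.mem_filter, Set.Finite.mem_toFinset, Function.mem_support] at hp ⊢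
      refine ⟨by rw [hs]; exact hp.1, ?_⟩
      omega
    · intro p _
      ring
    · intro p _
      ring
    · intro p _
      exact (hs p).symm
  rw [he]
  exact Even.add_self _

end central

end Pool.Agent.R387.RC
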