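import Pool.Agent.R387.RC.Core

/-!
# The central pair
-/

set_option autoImplicit false

set_option linter.unusedSectionVars false

open NumberField Complex

open scoped ComplexConjugate

namespace Pool.Agent.R387.RC

variable {F E : Type} [Field F] [NumberField F] [Field E] [NumberField E]

/-- for even rank the constant is rational -/
theorem const_rat {Δ : ℂ} {q : ℚ} (hq : q ≠ 0) (h : Δ ^ 2 = (q : ℂ)) (d : ℕ) {n : ℕ}
    (hn : Even n) : ∃ r : ℚ, r ≠ 0 ∧ (I ^ d * Δ) ^ n = (r : ℂ) := by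
  obtain ⟨k, rfl⟩ := hn
  obtain ⟨r, hr0, hr⟩ := const_sq hq h d k
  exact ⟨r, hr0, by rw [← hr]; ring⟩

variable {M M' : Motive F E} {ε : (E →+* ℂ) → ℂ} (h : IsDual M M' ε)

include h

/-- consequence of the formula at the central pair -/
theorem central_norm {Δ : ℂ} {m : ℤ} (hm : M.w = 2 * m)
    (h0 : ∀ ι, M.L ι ((m + 1 : ℤ) : ℂ) ≠ 0) (hf : Formula F Δ M m) :
    ∃ e : E, e ≠ 0 ∧ ∀ ι : E →+* ℂ, ‖ι e‖ ^ 2 * ‖Δ‖ ^ (2 * M.n) = M.N := by
  obtain ⟨e, he, hf⟩ := hf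
  refine ⟨e, he, fun ι => ?_⟩
  have h1 := central_ratio h hm (h0 ι)
  rw [hf ι, norm_mul, norm_pow, norm_mul, norm_pow, norm_I, one_pow, one_mul, mul_pow,
    ← pow_mul, mul_comm M.n 2] at h1
  exact h1

/-- over a field with a real embedding the conductor is a square in the field -/
theorem central_square {Δ : ℂ} {q : ℚ} (hq : q ≠ 0) (hΔ : Δ ^ 2 = (q : ℂ)) {m : ℤ}
    (hm : M.w = 2 * m) (h0 : ∀ ι, M.L ι ((m + 1 : ℤ) : ℂ) ≠ 0) {ι : E →+* ℂ} (hι : bar ι = ι)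
    (hf : Formula F Δ M m) : IsSquare ((M.N : ℕ) : E) := by
  obtain ⟨r, hr0, hr⟩ := const_rat hq hΔ (Module.finrank ℚ F / 2) (even_rank M hι)
  obtain ⟨e, he, hf⟩ := hf
  have h1 := central_ratio h hm (h0 ι)
  rw [hf ι, hr] at h1
  have hreal : ∀ x : E, conj (ι x) = ι x := fun x => by
    have := congrArg (fun f : E →+* ℂ => f x) hι
    simpa [ComplexEmbedding.conjugate_coe_eq] using this
  refine ⟨e * r, ι.injective ?_⟩
  have h2 : ((‖ι e * (r : ℂ)‖ ^ 2 : ℝ) : ℂ) = (ι e * r) * (ι e * r) := by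
    rw [← normSq_eq_norm_sq, ← mul_conj, map_mul, hreal, map_ratCast]
  rw [h1] at h2
  rw [map_natCast, map_mul, map_mul, map_ratCast, ← h2]
  push_cast
  rfl

omit h in
/-- an element all whose embeddings agree is rational -/
theorem rational_of_same {s : E} {z : ℂ} (hs : ∀ ι : E →+* ℂ, ι s = z) :
    ∃ t : ℚ, algebraMap ℚ E t = s := by
  have h1 := NumberField.Embeddings.range_eval_eq_rootSet_minpoly E ℂ s
  have hint : IsIntegral ℚ s := Algebra.IsIntegral.isIntegral s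
  have h2 : Fintype.card ((minpoly ℚ s).rootSet ℂ) = (minpoly ℚ s).natDegree :=
    Polynomial.card_rootSet_eq_natDegree (minpoly.irreducible hint).separable
      (IsAlgClosed.splits _)
  have h3 : (minpoly ℚ s).rootSet ℂ = {z} := by
    rw [← h1]
    ext y
    constructor
    · rintro ⟨ι, rfl⟩
      exact hs ι
    · rintro rfl
      obtain ⟨ι⟩ : Nonempty (E →+* ℂ) := inferInstance
      exact ⟨ι, hs ι⟩
  have h4 : (minpoly ℚ s).natDegree = 1 := by
    rw [← h2, ← Nat.card_eq_fintype_card, h3]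
    simp
  obtain ⟨t, ht⟩ := minpoly.natDegree_eq_one_iff.1 h4
  exact ⟨t, ht⟩

/-- totally real coefficients, all ratios equal -/
theorem central_iff {Δ : ℂ} {q : ℚ} (hq : q ≠ 0) (hΔ : Δ ^ 2 = (q : ℂ)) {m : ℤ}
    (hm : M.w = 2 * m) (h0 : ∀ ι, M.L ι ((m + 1 : ℤ) : ℂ) ≠ 0)
    (hreal : ∀ ι : E →+* ℂ, bar ι = ι)
    (hsame : ∀ ι ι' : E →+* ℂ, M.L ι m / M.L ι ((m + 1 : ℤ) : ℂ) =
      M.L ι' m / M.L ι' ((m + 1 : ℤ) : ℂ)) :
    Formula F Δ M m ↔ IsSquare M.N := by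
  obtain ⟨ι₀⟩ : Nonempty (E →+* ℂ) := inferInstance
  obtain ⟨r, hr0, hr⟩ := const_rat hq hΔ (Module.finrank ℚ F / 2) (even_rank M (hreal ι₀))
  have hr0' : (r : ℂ) ≠ 0 := by exact_mod_cast hr0
  -- the ratio is real with square `N`
  have h1 := central_ratio h hm (h0 ι₀)
  have h2 : conj (M.L ι₀ m / M.L ι₀ ((m + 1 : ℤ) : ℂ)) =
      M.L ι₀ m / M.L ι₀ ((m + 1 : ℤ) : ℂ) := by
    rw [map_div₀, ← h.coef, ← h.coef, hreal]
  have h3 : (M.L ι₀ m / M.L ι₀ ((m + 1 : ℤ) : ℂ)) ^ 2 = (M.N : ℂ) := by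
    have h4 := mul_conj (M.L ι₀ m / M.L ι₀ ((m + 1 : ℤ) : ℂ))
    rw [h2, normSq_eq_norm_sq, h1] at h4
    rw [sq, h4]
    push_cast
    rfl
  constructor
  · rintro ⟨e, he, hf⟩
    have h5 : ∀ ι : E →+* ℂ, ι (e * r) = M.L ι₀ m / M.L ι₀ ((m + 1 : ℤ) : ℂ) := by
      intro ι
      rw [hsame ι₀ ι, hf ι, hr, map_mul, map_ratCast]
    obtain ⟨t, ht⟩ := rational_of_same h5
    have h6 : ((t * t : ℚ) : ℂ) = ((M.N : ℚ) : ℂ) := by
      have h7 : (ι₀ (algebraMap ℚ E t)) = (t : ℂ) := by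
        rw [eq_ratCast, map_ratCast]
      rw [ht, h5 ι₀] at h7
      push_cast
      rw [← h7, ← h3, sq]
    have h8 : IsSquare ((M.N : ℕ) : ℚ) := ⟨t, by exact_mod_cast h6.symm⟩
    exact Rat.isSquare_natCast_iff.1 h8
  · rintro ⟨a, ha⟩
    rw [ha] at h3
    have h4 : (M.L ι₀ m / M.L ι₀ ((m + 1 : ℤ) : ℂ)) = a ∨
        (M.L ι₀ m / M.L ι₀ ((m + 1 : ℤ) : ℂ)) = -a := by
      apply sq_eq_sq_iff_eq_or_eq_neg.1
      rw [h3]
      push_cast
      ring
    have ha0 : (a : E) ≠ 0 := by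
      have : a ≠ 0 := by
        rintro rfl
        have := M.N_pos
        omega
      exact_mod_cast this
    have hrE : (r : E) ≠ 0 := by exact_mod_cast hr0
    rcases h4 with h4 | h4
    · refine ⟨(a : E) * (r : E)⁻¹, mul_ne_zero ha0 (inv_ne_zero hrE), fun ι => ?_⟩
      rw [hsame ι ι₀, h4, hr, map_mul, map_inv₀, map_natCast, map_ratCast, mul_assoc,
        inv_mul_cancel₀ hr0', mul_one]
    · refine ⟨-(a : E) * (r : E)⁻¹, mul_ne_zero (neg_ne_zero.2 ha0) (inv_ne_zero hrE),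
        fun ι => ?_⟩
      rw [hsame ι ι₀, h4, hr, map_mul, map_inv₀, map_neg, map_natCast, map_ratCast, mul_assoc,
        inv_mul_cancel₀ hr0', mul_one]

omit h in
/-- for even rank the conductor of `M` is a square iff the norm of the conductor of `M₀` is one -/
theorem square_iff (M : Motive F E) (hn : Even M.n) (K : Type) [Field K] [CharZero K] :
    IsSquare ((M.N : ℕ) : K) ↔ IsSquare ((M.f : ℕ) : K) := by
  obtain ⟨k, hk⟩ := hn
  have hd : (((discr F).natAbs : ℕ) : K) ≠ 0 := by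
    exact_mod_cast (Int.natAbs_pos.2 (discr_ne_zero F)).ne'
  have h1 : ((M.N : ℕ) : K) = (((discr F).natAbs : ℕ) : K) ^ k *
      (((discr F).natAbs : ℕ) : K) ^ k * (M.f : K) := by
    rw [M.N_eq, hk]
    push_cast
    ring
  rw [h1]
  constructor
  · rintro ⟨a, ha⟩
    refine ⟨a * ((((discr F).natAbs : ℕ) : K) ^ k)⁻¹, ?_⟩
    have h2 : (((discr F).natAbs : ℕ) : K) ^ k ≠ 0 := pow_ne_zero _ hd
    rw [show a * ((((discr F).natAbs : ℕ) : K) ^ k)⁻¹ * (a * ((((discr F).natAbs : ℕ) : K) ^ k)⁻¹) =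
      (a * a) * ((((discr F).natAbs : ℕ) : K) ^ k)⁻¹ * ((((discr F).natAbs : ℕ) : K) ^ k)⁻¹ by ring,
      ← ha]
    field_simp
  · rintro ⟨a, ha⟩
    exact ⟨(((discr F).natAbs : ℕ) : K) ^ k * a, by rw [ha]; ring⟩

omit h in
theorem square_iff_nat (M : Motive F E) (hn : Even M.n) : IsSquare M.N ↔ IsSquare M.f := by
  rw [← Rat.isSquare_natCast_iff, ← Rat.isSquare_natCast_iff (n := M.f)]
  exact square_iff M hn ℚ

omit h in
/-- extension of coefficients -/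
theorem formula_extend {E' : Type} [Field E'] [NumberField E'] [Algebra E E'] {Δ : ℂ} {q : ℚ}
    (hq : q ≠ 0) (hΔ : Δ ^ 2 = (q : ℂ)) (M : Motive F E) (M₂ : Motive F E') (hn : M₂.n = M.n)
    (m : ℤ) (hL : ∀ (ι : E' →+* ℂ) (k : ℤ), M₂.L ι k = M.L (ι.comp (algebraMap E E')) k) :
    Formula F Δ M₂ m ↔ Formula F Δ M m := by
  obtain ⟨r, hr0, hr⟩ := const_sq hq hΔ (Module.finrank ℚ F / 2) M.n
  have hr0' : (r : ℂ) ≠ 0 := by exact_mod_cast hr0
  unfold Formula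
  rw [hn]
  set c : ℂ := (I ^ (Module.finrank ℚ F / 2) * Δ) ^ M.n with hc
  have hc0 : c ≠ 0 := by
    intro e
    rw [e] at hr
    exact hr0' (by rw [← hr]; ring)
  have : FiniteDimensional E E' := Module.Finite.of_restrictScalars_finite ℚ E E'
  constructor
  · rintro ⟨e', he', hf⟩
    -- `e'` lies in `E`
    have hrange : ∃ e : E, algebraMap E E' e = e' := by
      obtain ⟨ι₀⟩ : Nonempty (E →+* ℂ) := inferInstance
      let _ : Algebra E ℂ := ι₀.toAlgebra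
      have hsame : ∀ φ : E' →ₐ[E] ℂ, φ e' = (M.L ι₀ m / M.L ι₀ ((m + 1 : ℤ) : ℂ)) / c := by
        intro φ
        have h1 := hf φ.toRingHom
        rw [hL, hL] at h1
        have h2 : φ.toRingHom.comp (algebraMap E E') = ι₀ := by
          ext x
          exact φ.commutes x
        rw [h2] at h1
        rw [h1, mul_div_assoc, div_self hc0, mul_one]
        rfl
      have hint : IsIntegral E e' := Algebra.IsIntegral.isIntegral e'
      have h2 : Fintype.card ((minpoly E e').rootSet ℂ) = (minpoly E e').natDegree :=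
        Polynomial.card_rootSet_eq_natDegree (minpoly.irreducible hint).separable
          (IsAlgClosed.splits _)
      have h1 : (Set.range fun φ : E' →ₐ[E] ℂ => φ e') = (minpoly E e').rootSet ℂ :=
        Algebra.IsAlgebraic.range_eval_eq_rootSet_minpoly ℂ e'
      have h3 : (minpoly E e').rootSet ℂ = {(M.L ι₀ m / M.L ι₀ ((m + 1 : ℤ) : ℂ)) / c} := by
        rw [← h1]
        ext y
        constructor
        · rintro ⟨φ, rfl⟩
          exact hsame φ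
        · rintro rfl
          obtain ⟨φ⟩ : Nonempty (E' →ₐ[E] ℂ) := ⟨IsAlgClosed.lift⟩
          exact ⟨φ, hsame φ⟩
      have h4 : (minpoly E e').natDegree = 1 := by
        rw [← h2, ← Nat.card_eq_fintype_card, h3]
        simp
      obtain ⟨t, ht⟩ := minpoly.natDegree_eq_one_iff.1 h4
      exact ⟨t, ht⟩
    obtain ⟨e, rfl⟩ := hrange
    refine ⟨e, fun h0 => he' (by rw [h0, map_zero]), fun ι => ?_⟩
    let _ : Algebra E ℂ := ι.toAlgebra
    obtain ⟨φ⟩ : Nonempty (E' →ₐ[E] ℂ) := ⟨IsAlgClosed.lift⟩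
    have h1 := hf φ.toRingHom
    rw [hL, hL] at h1
    have h2 : φ.toRingHom.comp (algebraMap E E') = ι := by
      ext x
      exact φ.commutes x
    rw [h2] at h1
    rw [h1]
    congr 1
    exact φ.commutes e
  · rintro ⟨e, he, hf⟩
    refine ⟨algebraMap E E' e, (map_ne_zero _).2 he, fun ι => ?_⟩
    rw [hL, hL, hf]
    rfl

omit h in
/-- the formula at all pairs `m, m + 1` with `P m` -/
def Holds (F : Type) [Field F] [NumberField F] {E : Type} [Field E] (Δ : ℂ) (M : Motive F E)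
    (P : ℤ → Prop) : Prop :=
  ∀ m : ℤ, P m → Crit M m → Crit M (m + 1) → (∀ ι, M.L ι m ≠ 0) →
    (∀ ι, M.L ι ((m + 1 : ℤ) : ℂ) ≠ 0) → Formula F Δ M m

/-- transport of the formula at one pair -/
theorem holds_of_dual {Δ : ℂ} {q : ℚ} (hq : q ≠ 0) (hΔ : Δ ^ 2 = (q : ℂ)) {m : ℤ} {P : ℤ → Prop}
    (hM' : Holds F Δ M' P) (hP : P (-m)) (h1 : Crit M m) (h2 : Crit M (m + 1))
    (h3 : ∀ ι, M.L ι m ≠ 0) (h4 : ∀ ι, M.L ι ((m + 1 : ℤ) : ℂ) ≠ 0) : Formula F Δ M m := by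
  rw [formula_dual h hq hΔ h1 h2]
  have e1 : (1 - (m + 1) : ℤ) = -m := by ring
  have e2 : (1 - m : ℤ) = -m + 1 := by ring
  refine hM' (-m) hP ?_ ?_ ?_ ?_
  · rw [← e1]
    exact (h.crit _).2 h2
  · rw [← e2]
    exact (h.crit _).2 h1
  · intro ι
    rw [← e1]
    exact (ne_dual h h2).2 (h4 ι)
  · intro ι
    rw [← e2]
    exact (ne_dual h h1).2 (h3 ι)

/-- the same in the other direction -/
theorem holds_to_dual {Δ : ℂ} {q : ℚ} (hq : q ≠ 0) (hΔ : Δ ^ 2 = (q : ℂ)) {m : ℤ} {P : ℤ → Prop}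
    (hM : Holds F Δ M P) (hP : P (-m)) (h1 : Crit M' m) (h2 : Crit M' (m + 1))
    (h3 : ∀ ι, M'.L ι m ≠ 0) (h4 : ∀ ι, M'.L ι ((m + 1 : ℤ) : ℂ) ≠ 0) : Formula F Δ M' m := by
  have e1 : (1 - (-m) : ℤ) = m + 1 := by ring
  have e2 : (1 - (-m + 1) : ℤ) = m := by ring
  have c1 : Crit M (-m) := by
    rw [← h.crit, e1]
    exact h2
  have c2 : Crit M (-m + 1) := by
    rw [← h.crit, e2]
    exact h1
  have h5 := hM (-m) hP c1 c2 (fun ι => (ne_dual h c1).1 (by rw [e1]; exact h4 ι))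
    (fun ι => (ne_dual h c2).1 (by rw [e2]; exact h3 ι))
  rw [formula_dual h hq hΔ c1 c2, neg_neg] at h5
  exact h5

/-- reduction to the right half -/
theorem right_half {Δ : ℂ} {q : ℚ} (hq : q ≠ 0) (hΔ : Δ ^ 2 = (q : ℂ)) :
    (Holds F Δ M (fun _ => True) ∧ Holds F Δ M' (fun _ => True)) ↔
      (Holds F Δ M (fun m => M.w ≤ 2 * m) ∧ Holds F Δ M' (fun m => M'.w < 2 * m)) := by
  constructor
  · rintro ⟨h1, h2⟩
    exact ⟨fun m _ => h1 m trivial, fun m _ => h2 m trivial⟩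
  · rintro ⟨h1, h2⟩
    have hw := h.w_eq
    refine ⟨fun m _ c1 c2 n1 n2 => ?_, fun m _ c1 c2 n1 n2 => ?_⟩
    · by_cases hm : M.w ≤ 2 * m
      · exact h1 m hm c1 c2 n1 n2
      · exact holds_of_dual h hq hΔ h2 (by rw [hw]; omega) c1 c2 n1 n2
    · by_cases hm : M'.w < 2 * m
      · exact h2 m hm c1 c2 n1 n2
      · exact holds_to_dual h hq hΔ h1 (by rw [hw] at hm; omega) c1 c2 n1 n2

end Pool.Agent.R387.RC
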